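import Pool.Agent.H56.KAL.Stmts3

/-!
# UNI: an affine image of a uniform variable has large entropy
-/

set_option autoImplicit false

namespace Pool.KAL

open Finset Real MeasureTheory
open Pool.Agent.H49.Ent Pool.Agent.H32.Dense Pool.STK Pool.KAF

theorem uni_card (F : Finset ℕ) (b : ℝ) (hb : 0 < b) (hb1 : b ≤ 1)
    (hF : ∀ x ∈ F, ∀ y ∈ F, b * ((y : ℝ) - x) < 1) : (F.card : ℝ) ≤ 2 / b := by
  classical
  rcases F.eq_empty_or_nonempty with h | h
  · subst h
    simp only [Finset.card_empty, Nat.cast_zero]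
    positivity
  · set m := F.min' h with hm
    have hsub : F ⊆ Finset.Icc m (m + ⌊1 / b⌋₊) := by
      intro y hy
      rw [Finset.mem_Icc]
      have h1 : m ≤ y := Finset.min'_le F y hy
      refine ⟨h1, ?_⟩
      have h2 := hF m (Finset.min'_mem F h) y hy
      have h3 : ((y - m : ℕ) : ℝ) ≤ 1 / b := by
        rw [Nat.cast_sub h1, le_div_iff₀ hb]
        linarith
      have h4 : y - m ≤ ⌊1 / b⌋₊ := Nat.le_floor h3
      omega
    have hc := Finset.card_le_card hsub
    rw [Nat.card_Icc] at hc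
    have hc2 : F.card ≤ ⌊1 / b⌋₊ + 1 := by omega
    have hc3 : (F.card : ℝ) ≤ (⌊1 / b⌋₊ : ℝ) + 1 := by exact_mod_cast hc2
    have h5 : ((⌊1 / b⌋₊ : ℕ) : ℝ) ≤ 1 / b := Nat.floor_le (by positivity)
    have h6 : 1 ≤ 1 / b := by
      rw [le_div_iff₀ hb]
      linarith
    have h7 : 2 / b = 1 / b + 1 / b := by ring
    rw [h7]
    linarith

theorem uni_thm : UNIStmt := by
  classical
  intro Ω ζ _ p N Y Z a δ g n hp hN hY hH ha ha1 hn
  have hb : 0 < |a| := abs_pos.mpr ha
  have hN' : (0 : ℝ) < N := by exact_mod_cast hN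
  -- the chain rule
  have e1 : H p (fun ω => (Y ω, (n ω, Z ω))) = H p (fun ω => (Y ω, Z ω)) := by
    refine H_congr hp.nonneg ?_ ?_
    · intro ω ω' _ _ h
      have h1 : Y ω = Y ω' := congrArg Prod.fst h
      have h2 : Z ω = Z ω' := congrArg Prod.snd h
      have h3 : n ω = n ω' := by rw [hn, hn, h1, h2]
      change (Y ω, (n ω, Z ω)) = (Y ω', (n ω', Z ω'))
      rw [h1, h2, h3]
    · intro ω ω' _ _ h
      have h1 : Y ω = Y ω' := congrArg Prod.fst h
      have h2 : Z ω = Z ω' := congrArg (fun x => x.2.2) h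
      change (Y ω, Z ω) = (Y ω', Z ω')
      rw [h1, h2]
  have e2 : CH p n Z = CH p Y Z - CH p Y (fun ω => (n ω, Z ω)) := by
    unfold CH
    rw [e1]
    ring
  -- counting
  have hc := CH_le_card hp.nonneg hp.sum_one Y (fun ω => (n ω, Z ω))
    (fun w => (range N).filter fun y => ⌊a * (y : ℝ) + g w.2⌋ = w.1)
    (fun ω _ => by
      rw [Finset.mem_filter, Finset.mem_range]
      exact ⟨hY ω, (hn ω).symm⟩)
  have hc2 : CH p Y (fun ω => (n ω, Z ω)) ≤ Real.log (2 / |a|) := by
    refine hc.trans ?_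
    have hle : ∀ ω, Real.log ((((range N).filter fun y : ℕ =>
        ⌊a * (y : ℝ) + g (Z ω)⌋ = n ω).card : ℝ)) ≤ Real.log (2 / |a|) := by
      intro ω
      have hpos : (0 : ℝ) < (((range N).filter fun y : ℕ =>
          ⌊a * (y : ℝ) + g (Z ω)⌋ = n ω).card : ℝ) := by
        exact_mod_cast Finset.card_pos.mpr ⟨Y ω, by
          rw [Finset.mem_filter, Finset.mem_range]
          exact ⟨hY ω, (hn ω).symm⟩⟩
      refine Real.log_le_log hpos (uni_card _ _ hb ha1 ?_)
      intro x hx y hy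
      rw [Finset.mem_filter] at hx hy
      have hx1 := Int.floor_eq_iff.mp hx.2
      have hy1 := Int.floor_eq_iff.mp hy.2
      have h8 : |a * ((y : ℝ) - x)| < 1 := by
        rw [abs_lt]
        constructor <;> linarith [hx1.1, hx1.2, hy1.1, hy1.2]
      calc |a| * ((y : ℝ) - x) ≤ |a| * |(y : ℝ) - x| :=
            mul_le_mul_of_nonneg_left (le_abs_self _) hb.le
        _ = |a * ((y : ℝ) - x)| := (abs_mul _ _).symm
        _ < 1 := h8
    unfold Ex
    calc ∑ ω, p ω * Real.log ((((range N).filter fun y : ℕ =>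
          ⌊a * (y : ℝ) + g (Z ω)⌋ = n ω).card : ℝ)) ≤ ∑ ω, p ω * Real.log (2 / |a|) :=
          Finset.sum_le_sum fun ω _ => mul_le_mul_of_nonneg_left (hle ω) (hp.nonneg ω)
      _ = Real.log (2 / |a|) := by rw [← Finset.sum_mul, hp.sum_one, one_mul]
  rw [Real.log_div two_ne_zero hb.ne'] at hc2
  rw [Real.log_mul hb.ne' hN'.ne', e2]
  linarith

end Pool.KAL
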